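import Pool.Agent.L7h86.LP.Asm

/-!
# All longest paths of a connected `P₅`-free graph have a common vertex

**Theorem.** Let `G` be a finite connected graph without an induced path on five vertices. Then some
vertex lies on all longest paths of `G`.

Proof. For a longest path `Q` and a component `C` of `G - Q` let `Φ(C)` be the largest `n` such that
from each vertex of `N(C)` one can go to the first vertex of a path in `C` with at least `n` vertices.
Choose `(Q, C)` so that `Φ(C)` is maximal, and then `|N[C]|`. Let `H = V - N[C]`, and
`h(v) = N(v) ∩ H`. If `C` is a single vertex, a vertex of `N(C)` with more than `|N(C)|` neighbours on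
`Q` is on all longest paths, by the choice of `(Q, C)`. Suppose that `C` has an edge. Let `a` have the
largest `|h(a)|` among the vertices of `N(C)` with a neighbour in the component of `G[H]` which contains
the first vertex of `Q`. Suppose that the longest path `P` misses `a`, and let `C'` be the component of
`G - P` with `a ∈ C'`, and `W` the set of the attachments of `C'`. If `P` misses `C`, then
`Φ(C') ≥ Φ(C)` and `|N[C']| > |N[C]|`; if `P` meets `C` and `a` is not adjacent to all of `C`, then
`Φ(C') > Φ(C)`. So `a` is adjacent to all of `C`, and `P` meets `C`.

Let `B` be the set of the vertices of `N(C)` which follow on `P` a vertex of `W`, and `U` the set of the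
vertices of `H` without a neighbour in `B ∪ {a}`. On `P`, a vertex of `h(a)` is in `W` and is followed by
a vertex of `B ∪ U`; and a vertex of `C` is in `W` and is followed by a vertex of `B`.

* Private neighbours in `H` of two nonadjacent vertices of `N(C)` are adjacent. If `B₄ ⊆ B` and
  `t : B₄ → H - h(a)` is injective with `t(b)` adjacent to `b` and with an independent image, it follows
  that the vertices of `W` followed by vertices of `B` (or of `Γ ⊆ U`) outweigh `B₄`: with `C ∩ P`, and any
  set `Z ⊆ h(a)` of such vertices without edges to `t(B₄)`, we get
  `|C ∩ P| + |Z| + |B₄| ≤ |B| + |Γ|`.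
* With the successors on `Q` this gives a vertex of `h(a)` followed on `P` by a vertex of `U`; then all
  vertices of `B` are adjacent to all of `C`, `C` is contained in `P`, and two successors on `Q` of
  vertices of `B` have a common neighbour in `U`.
* Add a vertex `∞` adjacent to all vertices, and consider all paths `T` on `Q`, `∞` and two adjacent
  vertices of `C` (consecutive on `T`, between vertices of `B ∪ {a}`) without consecutive vertices of
  `N(C) ∪ {∞}` and with both ends `y`, `z` in `h(a)`. The successors on `Q` above give such a path. Choose
  `T` with the largest number of common neighbours of `y`, `z` in `U`, and let `Γ = U ∩ N(y)`, which is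
  in `N(z)` after reversing `T`. By rotations of `T` the successors on `T` of the vertices of `B ∪ Γ`
  and `y` are independent, and at most one of them in `h(a)` is followed on `P` by a vertex of `U - Γ`;
  the successor of a vertex of `Γ` is in `h(a)`, and the successor of a vertex of `B` is in `H`, with at
  most one exception in `C`. The count gives `|C| ≤ 1`, a contradiction.
-/

set_option autoImplicit false

namespace Pool.Agent.Results.MP_feab4e_co.AllP5Free

/-- **Theorem.** Let `G` be a finite connected graph without an induced path on five vertices. Then all
longest paths of `G` have a common vertex: there is a vertex `a` which lies on each path `P` of `G` such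
that no path of `G` is longer than `P`. -/
theorem result {V : Type*} [Fintype V] (G : SimpleGraph V) (hG : G.Connected)
    (h5 : IsEmpty (SimpleGraph.pathGraph 5 ↪g G)) :
    ∃ a : V, ∀ (u v : V) (P : G.Walk u v), P.IsPath →
      (∀ (u' v' : V) (P' : G.Walk u' v'), P'.IsPath → P'.length ≤ P.length) → a ∈ P.support := by
  obtain ⟨a, ha⟩ := Pool.Agent.L7h86.LP.common hG (Pool.Agent.K7.H44.LP.noP5 h5)
  exact ⟨a, fun u v P hP hP' =>
    ha _ (Pool.Agent.K7.H44.LP.IsLongest.longest (G := G) (p := P) ⟨hP, hP'⟩)⟩

end Pool.Agent.Results.MP_feab4e_co.AllP5Free
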